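import Pool.Agent.H76.NPC.Sat

/-!
# Finite graphs as inputs of decision problems, encoded by their adjacency matrices
-/

namespace Pool.Agent.H692R2

open Pool.Agent.NPC

/-- A finite simple graph with vertex set `{0, …, n-1}`. -/
structure FinGraph where
  /-- the number of vertices -/
  n : ℕ
  /-- the graph -/
  graph : SimpleGraph (Fin n)

open Classical in
/-- The adjacency matrix, as a list of rows. -/
noncomputable def FinGraph.matrix (G : FinGraph) : List (List Bool) :=
  List.ofFn fun i : Fin G.n => List.ofFn fun j : Fin G.n => decide (G.graph.Adj i j)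

theorem FinGraph.matrix_injective : Function.Injective FinGraph.matrix := by
  classical
  rintro ⟨n, G⟩ ⟨n', G'⟩ h
  have hn : n = n' := by simpa [FinGraph.matrix] using congrArg List.length h
  subst hn
  have h2 := List.ofFn_injective h
  congr 1
  ext i j
  have h3 := List.ofFn_injective (congrFun h2 i)
  simpa using congrFun h3 j

/-- A graph is encoded by its adjacency matrix. -/
noncomputable instance : TEnc FinGraph :=
  ⟨fun G => toT G.matrix, fun _ _ h => FinGraph.matrix_injective (TEnc.inj h)⟩

theorem FinGraph.matrix_eq (N : ℕ) (b : ℕ → ℕ → Bool) (G : SimpleGraph (Fin N))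
    (h : ∀ i j : Fin N, G.Adj i j ↔ b i j = true) :
    (⟨N, G⟩ : FinGraph).matrix =
      (List.range N).map (fun i => (List.range N).map (fun j => b i j)) := by
  classical
  have key : ∀ {β : Type} (f : ℕ → β), (List.range N).map f = List.ofFn fun i : Fin N => f i := by
    intro β f
    rw [List.ofFn_eq_map, ← List.map_coe_finRange_eq_range, List.map_map]
    rfl
  unfold FinGraph.matrix
  rw [key]
  congr 1
  funext i
  rw [key]
  congr 1
  funext j
  have := h i j
  by_cases hb : b i j = true
  · simp [hb, this.2 hb]
  · have h' : ¬ G.Adj i j := fun hh => hb (this.1 hh)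
    simp only [Bool.not_eq_true] at hb
    simp [hb, h']

/-- A graph-valued function is polynomial-time computable when the number of vertices (in unary)
and the adjacency relation are. -/
theorem poly_finGraph {α : Type} [TEnc α] {N : α → ℕ} {b : α → ℕ → ℕ → Bool}
    {G : ∀ a, SimpleGraph (Fin (N a))} (hN : UPoly N)
    (hb : Poly (fun p : (α × ℕ) × ℕ => b p.1.1 p.1.2 p.2))
    (h : ∀ a, ∀ i j : Fin (N a), (G a).Adj i j ↔ b a i j = true) :
    Poly (fun a => (⟨N a, G a⟩ : FinGraph)) := by
  have h1 : Poly (fun a => (List.range (N a)).map (fun i =>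
      (List.range (N a)).map (fun j => b a i j))) := by
    refine NPC.Poly.map (F := fun a i => (List.range (N a)).map (fun j => b a i j))
      (UPoly.range hN) ?_
    exact NPC.Poly.map (l := fun p : α × ℕ => List.range (N p.1)) (F := fun p j => b p.1 p.2 j)
      (UPoly.range (hN.comp (NPC.Poly.fst NPC.Poly.id))) hb
  have h2 : Poly (fun a => (⟨N a, G a⟩ : FinGraph).matrix) :=
    h1.congr fun a => (FinGraph.matrix_eq (N a) (b a) (G a) (h a)).symm
  exact h2

end Pool.Agent.H692R2
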